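import Pool.Agent.Helper61.NW.Goals

/-!
# Project NW, packet CRX, abstract part
-/

set_option autoImplicit false

namespace Pool.Agent.Helper13.NW

open Pool.Agent.Helper52.Wq2

universe u

/-- **CRXA.** Vertex `v p l`: position `p` on line `l`, lines `0, …, 2 q`. -/
def CrxAStmt : Prop := ∀ (V : Type u) (G : SimpleGraph V) (q : ℕ) (M : ℤ) (v : ℤ → ℕ → V), 0 < M →
  (∀ p l p' l', l ≤ 2 * q → l' ≤ 2 * q → v p l = v p' l' → p = p' ∧ l = l') →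
  (∀ p l, l ≤ 2 * q → G.Adj (v p l) (v (p + 1) l)) →
  (∀ p l p' l', G.Adj (v p l) (v p' l') ↔ G.Adj (v (p + M) l) (v (p' + M) l')) →
  (∀ l, l + 1 ≤ 2 * q → ∃ p p', G.Adj (v p l) (v p' (l + 1))) →
  (∀ i, i < q → ∃ p p', G.Adj (v p (2 * i)) (v (p' + 1) (2 * i + 1)) ∧
    G.Adj (v (p + 1) (2 * i)) (v p' (2 * i + 1))) →
  Mn (StarZ (Fin q)) G

end Pool.Agent.Helper13.NW
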