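import Pool.Agent.Helper65.NW.Goals
import Pool.Agent.Helper94.RT.PAR
import Pool.Agent.Helper28.Ram.Main

/-!
# Networks of processors: the simulation is a linear-space function
-/

namespace Pool.Agent.Helper13.NW

open Pool.Agent.Helper65.LinSpace Pool.Agent.Helper78.Mpc Finset
open Pool.Agent.Helper28.Ram hiding Mach LSM
open Pool.Agent.Helper65.NW (LSM LSV_stmt Mach)
open Pool.Agent.Helper69.Ram (pR_spec pR_le)
open Pool.Agent.Helper65

variable {α β : Type} [Ctx α] [Ctx β]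

theorem lsm_comp {m : α → Mach} {C : α → ℕ} (h : LSM m C) {f : β → α} (hf : LS f) :
    LSM (fun z => m (f z)) (fun z => C (f z)) where
  σ := LS.comp (g := fun z => (m z).σ) h.σ hf
  V := LS.comp (g := fun z => (m z).V) h.V hf
  B := LS.comp (g := fun z => (m z).B) h.B hf
  K := LS.comp (g := fun z => (m z).K) h.K hf
  dg := LS.comp (g := fun z => (m z).dg) h.dg hf
  Wd := LS.comp (g := fun z => (m z).Wd) h.Wd hf
  inp := LS.comp (g := fun z : α × ℕ × ℕ × ℕ => (m z.1).inp z.2.1 z.2.2.1 z.2.2.2)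
    (f := fun z : β × ℕ × ℕ × ℕ => (f z.1, z.2)) h.inp (by fun_prop)
  upd := LS.comp (g := fun z : α × ℕ × ℕ × ℕ => (m z.1).upd z.2.1 z.2.2.1 z.2.2.2)
    (f := fun z : β × ℕ × ℕ × ℕ => (f z.1, z.2)) h.upd (by fun_prop)
  ini := LS.comp (g := fun z : α × ℕ => (m z.1).ini z.2)
    (f := fun z : β × ℕ => (f z.1, z.2)) h.ini (by fun_prop)
  bd := LS.comp (g := C) h.bd hf
  ok z := h.ok (f z)
  hC1 z := h.hC1 (f z)
  hC2 z := h.hC2 (f z)
  hC3 z := h.hC3 (f z)

/-! ### Bounds -/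

theorem eq01_le (a b : ℕ) : eq01 a b ≤ 1 := by
  unfold eq01
  split_ifs <;> omega

theorem lt01_le (a b : ℕ) : lt01 a b ≤ 1 := by
  unfold lt01
  split_ifs <;> omega

theorem mem_le (m : Mach) (t k z u : ℕ) : m.mem t k z u ≤ 1 := lt01_le _ _

theorem walk_le {m : Mach} (hm : m.Ok) (t z π j : ℕ) : m.walk t z π j ≤ z + m.Wd := by
  unfold Mach.walk
  cases j with
  | zero => exact Nat.le_add_right _ _
  | succ j =>
    rw [nrec_succ]
    exact (hm.hinp _ _ _).le.trans (Nat.le_add_left _ _)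

theorem sel_term_le (m : Mach) (t k z i u : ℕ) :
    m.mem t k z u * (eq01 (m.cnt t k z u) i * u) ≤ u := by
  have h1 := mem_le m t k z u
  have h2 := eq01_le (m.cnt t k z u) i
  calc m.mem t k z u * (eq01 (m.cnt t k z u) i * u) ≤ 1 * (1 * u) :=
        Nat.mul_le_mul h1 (Nat.mul_le_mul_right _ h2)
    _ = u := by ring

theorem sel_le (m : Mach) (t k z i : ℕ) : m.sel t k z i ≤ m.Wd * m.Wd := by
  unfold Mach.sel
  refine (sum_le_sum (g := fun _ => m.Wd) fun u hu =>
    (sel_term_le m t k z i u).trans (mem_range.1 hu).le).trans ?_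
  simp

theorem ch_le (m : Mach) (u i : ℕ) : m.ch u i ≤ u + m.Wd * m.Wd := by
  unfold Mach.ch
  refine Nat.add_le_add ?_ (sel_le _ _ _ _ _)
  exact (Nat.mul_le_mul_right _ (Nat.sub_le _ _)).trans (Nat.div_mul_le_self _ _)

theorem nF_lt (m : Mach) (u a : ℕ) : m.nF u a < 2 ^ m.σ := by
  unfold Mach.nF
  have h1 : m.small (u / m.Wd) (u % m.Wd) ≤ 1 := eq01_le _ _
  have h2 := dig_lt (q := 2 ^ m.σ) (by positivity)
    (m.tbl (u / m.Wd) (u % m.Wd) a (min m.B (u / m.Wd))) 0
  calc m.small (u / m.Wd) (u % m.Wd) * dig (2 ^ m.σ)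
        (m.tbl (u / m.Wd) (u % m.Wd) a (min m.B (u / m.Wd))) 0
      ≤ 1 * dig (2 ^ m.σ) (m.tbl (u / m.Wd) (u % m.Wd) a (min m.B (u / m.Wd))) 0 :=
        Nat.mul_le_mul_right _ h1
    _ < 2 ^ m.σ := by rwa [one_mul]

theorem leaf_lt {m : Mach} (hm : m.Ok) (u : ℕ) : m.leaf u < 2 ^ m.σ := by
  unfold Mach.leaf ifz
  split_ifs
  · exact hm.hini _
  · positivity

/-! ### Linear space -/

section

variable {m : α → Mach} {C : α → ℕ}

theorem ls_inp (h : LSM m C) {t z i : α → ℕ} (ht : LS t) (hz : LS z) (hi : LS i) :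
    LS (fun a => (m a).inp (t a) (z a) (i a)) :=
  LS.comp (g := fun z : α × ℕ × ℕ × ℕ => (m z.1).inp z.2.1 z.2.2.1 z.2.2.2)
    (f := fun a => (a, t a, z a, i a)) h.inp
    (LS.prodMk LS.id (LS.prodMk ht (LS.prodMk hz hi)))

theorem ls_upd (h : LSM m C) {t z i : α → ℕ} (ht : LS t) (hz : LS z) (hi : LS i) :
    LS (fun a => (m a).upd (t a) (z a) (i a)) :=
  LS.comp (g := fun z : α × ℕ × ℕ × ℕ => (m z.1).upd z.2.1 z.2.2.1 z.2.2.2)
    (f := fun a => (a, t a, z a, i a)) h.upd
    (LS.prodMk LS.id (LS.prodMk ht (LS.prodMk hz hi)))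

theorem ls_init (h : LSM m C) {z : α → ℕ} (hz : LS z) : LS (fun a => (m a).ini (z a)) :=
  LS.comp (g := fun z : α × ℕ => (m z.1).ini z.2) (f := fun a => (a, z a)) h.ini
    (LS.prodMk LS.id hz)

theorem ls_walk (h : LSM m C) {t z π j : α → ℕ} (ht : LS t) (hz : LS z) (hπ : LS π)
    (hj : LS j) : LS (fun a => (m a).walk (t a) (z a) (π a) (j a)) := by
  have hW := h.Wd
  refine LS.nrec (G := z) (N := j) (C := fun a => z a + (m a).Wd)
    (K := fun a i u => (m a).inp (t a - 1 - i) u (dig (m a).dg (π a) i)) hz hj (by fun_prop)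
    ?_ ?_
  · have h' : LSM (fun z : α × ℕ × ℕ => m z.1) (fun z => C z.1) := lsm_comp h LS.fst
    have hd := h'.dg
    exact ls_inp h' (t := fun z : α × ℕ × ℕ => t z.1 - 1 - z.2.1) (z := fun z => z.2.2)
      (i := fun z => dig (m z.1).dg (π z.1) z.2.1) (by fun_prop) (by fun_prop) (by fun_prop)
  · intro a i _
    exact walk_le (h.ok a) (t a) (z a) (π a) i

theorem ls_mem (h : LSM m C) {t k z u : α → ℕ} (ht : LS t) (hk : LS k) (hz : LS z)
    (hu : LS u) : LS (fun a => (m a).mem (t a) (min (k a) (m a).B) (z a) (u a)) := by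
  have hB := h.B
  have hbd := h.bd
  unfold Mach.mem
  refine LS.lt01 (LS.const 0) ?_
  refine LS.sum_le
    (f := fun a π => eq01 ((m a).walk (t a) (z a) π (min (k a) (m a).B)) (u a))
    (N := fun a => (m a).dg ^ min (k a) (m a).B) (B := fun _ => 1) ?_ ?_ (LS.const 1)
    fun a i _ => eq01_le _ _
  · have h' : LSM (fun z : α × ℕ => m z.1) (fun z => C z.1) := lsm_comp h LS.fst
    have hB' := h'.B
    exact LS.eq01 (ls_walk h' (t := fun q : α × ℕ => t q.1) (z := fun q => z q.1)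
      (π := fun q => q.2) (j := fun q => min (k q.1) (m q.1).B) (by fun_prop) (by fun_prop)
      (by fun_prop) (by fun_prop)) (by fun_prop)
  · refine LS.pow_of_le (C := fun a => C a + 1) h.dg (LS.min hk hB) (by fun_prop) fun a => ?_
    rcases Nat.eq_zero_or_pos (m a).dg with h0 | h0
    · rw [h0]
      rcases min (k a) (m a).B with _ | j
      · simp
      · simp
    · have h1 := Nat.pow_le_pow_right h0 (min_le_right (k a) (m a).B)
      have h2 := h.hC2 a
      omega

theorem ls_cnt (h : LSM m C) {t k z u : α → ℕ} (ht : LS t) (hk : LS k) (hz : LS z)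
    (hu : LS u) : LS (fun a => (m a).cnt (t a) (min (k a) (m a).B) (z a) (u a)) := by
  unfold Pool.Agent.Helper65.NW.Mach.cnt
  refine LS.sum_le
    (f := fun a v => (m a).mem (t a) (min (k a) (m a).B) (z a) v) (N := u) (B := fun _ => 1)
    ?_ hu (LS.const 1) fun a i _ => mem_le _ _ _ _ _
  have h' : LSM (fun z : α × ℕ => m z.1) (fun z => C z.1) := lsm_comp h LS.fst
  exact ls_mem h' (t := fun q : α × ℕ => t q.1) (k := fun q => k q.1) (z := fun q => z q.1)
      (u := fun q => q.2) (by fun_prop) (by fun_prop) (by fun_prop) (by fun_prop)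

theorem ls_sel (h : LSM m C) {t k z i : α → ℕ} (ht : LS t) (hk : LS k) (hz : LS z)
    (hi : LS i) : LS (fun a => (m a).sel (t a) (min (k a) (m a).B) (z a) (i a)) := by
  unfold Mach.sel
  refine LS.sum_le
    (f := fun a u => (m a).mem (t a) (min (k a) (m a).B) (z a) u *
      (eq01 ((m a).cnt (t a) (min (k a) (m a).B) (z a) u) (i a) * u)) (N := fun a => (m a).Wd)
    (B := fun a => (m a).Wd)
    ?_ h.Wd h.Wd fun a i hi => (sel_term_le _ _ _ _ _ _).trans hi.le
  have h' : LSM (fun z : α × ℕ => m z.1) (fun z => C z.1) := lsm_comp h LS.fst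
  have h1 := ls_mem h' (t := fun q : α × ℕ => t q.1) (k := fun q => k q.1) (z := fun q => z q.1)
      (u := fun q => q.2) (by fun_prop) (by fun_prop) (by fun_prop) (by fun_prop)
  have h2 := ls_cnt h' (t := fun q : α × ℕ => t q.1) (k := fun q => k q.1) (z := fun q => z q.1)
      (u := fun q => q.2) (by fun_prop) (by fun_prop) (by fun_prop) (by fun_prop)
  exact LS.mul h1 (LS.mul (LS.eq01 h2 (by fun_prop)) (by fun_prop))

theorem ls_powσ (h : LSM m C) (hs : ∀ a, 2 ^ (m a).σ ≤ C a) : LS (fun z => 2 ^ (m z).σ) :=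
  LS.pow_of_le (f := fun _ => 2) (LS.const 2) h.σ h.bd hs

/-- The step of `tbl`. -/
def stp (m : Mach) (t z e A : ℕ) : ℕ :=
  tab (2 ^ m.σ) m.V fun i =>
    m.upd (t - (min m.B t - e)) (m.sel t (min (min m.B t - (e + 1)) m.B) z i)
      (tab (2 ^ m.σ) m.dg fun l => dig (2 ^ m.σ) A (m.cnt t (min (min m.B t - e) m.B) z
        (m.inp (t - (min m.B t - e)) (m.sel t (min (min m.B t - (e + 1)) m.B) z i) l)))

theorem tbl_eq (m : Mach) (t z a e : ℕ) : m.tbl t z a e = nrec a (stp m t z) e := by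
  unfold Mach.tbl
  congr 1
  funext e A
  unfold stp
  have h1 : min (min m.B t - e) m.B = min m.B t - e :=
    min_eq_left ((Nat.sub_le _ _).trans (min_le_left _ _))
  have h2 : min (min m.B t - (e + 1)) m.B = min m.B t - (e + 1) :=
    min_eq_left ((Nat.sub_le _ _).trans (min_le_left _ _))
  rw [h1, h2]

theorem stp_lt {m : Mach} (hm : m.Ok) (t z e A : ℕ) : stp m t z e A < 2 ^ (m.σ * m.V) := by
  rw [pow_mul]
  exact tab_lt fun i _ => hm.hupd _ _ _

theorem ls_stp (h : LSM m C) (hs : ∀ a, 2 ^ (m a).σ ≤ C a) {t z e A : α → ℕ} (ht : LS t)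
    (hz : LS z) (he : LS e) (hA : LS A) : LS (fun a => stp (m a) (t a) (z a) (e a) (A a)) := by
  have hB := h.B
  unfold stp
  refine LS.tab (d := fun a i => (m a).upd (t a - (min (m a).B (t a) - e a))
      ((m a).sel (t a) (min (min (m a).B (t a) - (e a + 1)) (m a).B) (z a) i)
      (tab (2 ^ (m a).σ) (m a).dg fun l => dig (2 ^ (m a).σ) (A a)
        ((m a).cnt (t a) (min (min (m a).B (t a) - e a) (m a).B) (z a)
        ((m a).inp (t a - (min (m a).B (t a) - e a))
          ((m a).sel (t a) (min (min (m a).B (t a) - (e a + 1)) (m a).B) (z a) i) l))))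
    ?_ (ls_powσ h hs) h.V h.bd (fun a i _ => (h.ok a).hupd _ _ _) fun a => ?_
  · have h' : LSM (fun z : α × ℕ => m z.1) (fun z => C z.1) := lsm_comp h LS.fst
    have hB' := h'.B
    have e1 := ls_sel h' (t := fun q : α × ℕ => t q.1)
      (k := fun q => min (m q.1).B (t q.1) - (e q.1 + 1)) (z := fun q => z q.1)
      (i := fun q => q.2) (by fun_prop) (by fun_prop) (by fun_prop) (by fun_prop)
    refine ls_upd h' (t := fun q : α × ℕ => t q.1 - (min (m q.1).B (t q.1) - e q.1))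
      (by fun_prop) e1 ?_
    refine LS.tab (d := fun (q : α × ℕ) l => dig (2 ^ (m q.1).σ) (A q.1)
        ((m q.1).cnt (t q.1) (min (min (m q.1).B (t q.1) - e q.1) (m q.1).B) (z q.1)
        ((m q.1).inp (t q.1 - (min (m q.1).B (t q.1) - e q.1))
          ((m q.1).sel (t q.1) (min (min (m q.1).B (t q.1) - (e q.1 + 1)) (m q.1).B) (z q.1)
            q.2) l))) ?_ (ls_powσ h' fun q => hs q.1) h'.dg h'.bd
      (fun q l _ => dig_lt (by positivity) _ _) fun q => ?_
    · have h'' : LSM (fun z : (α × ℕ) × ℕ => m z.1.1) (fun z => C z.1.1) := lsm_comp h' LS.fst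
      have hB'' := h''.B
      have e2 := ls_sel h'' (t := fun q : (α × ℕ) × ℕ => t q.1.1)
        (k := fun q => min (m q.1.1).B (t q.1.1) - (e q.1.1 + 1)) (z := fun q => z q.1.1)
        (i := fun q => q.1.2) (by fun_prop) (by fun_prop) (by fun_prop) (by fun_prop)
      have e3 := ls_inp h'' (t := fun q : (α × ℕ) × ℕ =>
        t q.1.1 - (min (m q.1.1).B (t q.1.1) - e q.1.1)) (i := fun q => q.2)
        (by fun_prop) e2 (by fun_prop)
      have e4 := ls_cnt h'' (t := fun q : (α × ℕ) × ℕ => t q.1.1)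
        (k := fun q => min (m q.1.1).B (t q.1.1) - e q.1.1) (z := fun q => z q.1.1)
        (by fun_prop) (by fun_prop) (by fun_prop) e3
      exact LS.dig (ls_powσ h'' fun q => hs q.1.1) (by fun_prop) e4
    · rw [← pow_mul]
      exact h.hC3 q.1
  · rw [← pow_mul]
    exact h.hC1 a

theorem ls_tbl (h : LSM m C) (hs : ∀ a, 2 ^ (m a).σ ≤ C a) {t z A e : α → ℕ} (ht : LS t)
    (hz : LS z) (hA : LS A) (he : LS e) :
    LS (fun a => (m a).tbl (t a) (z a) (A a) (e a)) := by
  have hbd := h.bd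
  refine LS.congr (LS.nrec (G := A) (N := e) (C := fun a => C a + A a)
    (K := fun a e A => stp (m a) (t a) (z a) e A) hA he (by fun_prop) ?_ ?_)
    fun a => tbl_eq (m a) (t a) (z a) (A a) (e a)
  · have h' : LSM (fun z : α × ℕ × ℕ => m z.1) (fun z => C z.1) := lsm_comp h LS.fst
    exact ls_stp h' (fun q => hs q.1) (t := fun q : α × ℕ × ℕ => t q.1) (z := fun q => z q.1)
      (e := fun q => q.2.1) (A := fun q => q.2.2) (by fun_prop) (by fun_prop) (by fun_prop)
      (by fun_prop)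
  · intro a i _
    cases i with
    | zero => exact Nat.le_add_left _ _
    | succ i =>
      rw [nrec_succ]
      exact ((stp_lt (h.ok a) _ _ _ _).le.trans (h.hC1 a)).trans (Nat.le_add_right _ _)

theorem ls_small (h : LSM m C) {t z : α → ℕ} (ht : LS t) (hz : LS z) :
    LS (fun a => (m a).small (t a) (z a)) := by
  have hB := h.B
  unfold Mach.small
  refine LS.eq01 ?_ (LS.const 0)
  refine LS.congr (LS.sum_le
    (f := fun a k => lt01 (m a).V ((m a).cnt (t a) (min k (m a).B) (z a) (m a).Wd))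
    (N := fun a => min (m a).B (t a) + 1) (B := fun _ => 1) ?_ (by fun_prop) (LS.const 1)
    fun a i _ => lt01_le _ _) fun a => ?_
  · have h' : LSM (fun z : α × ℕ => m z.1) (fun z => C z.1) := lsm_comp h LS.fst
    exact LS.lt01 h'.V (ls_cnt h' (t := fun q : α × ℕ => t q.1) (k := fun q => q.2)
      (z := fun q => z q.1) (by fun_prop) (by fun_prop) (by fun_prop) h'.Wd)
  · refine sum_congr rfl fun k hk => ?_
    have h1 : k ≤ (m a).B := by
      have h2 := mem_range.1 hk
      have h3 := min_le_left (m a).B (t a)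
      omega
    rw [min_eq_left h1]

theorem ls_nF (h : LSM m C) (hs : ∀ a, 2 ^ (m a).σ ≤ C a) {u V : α → ℕ} (hu : LS u)
    (hV : LS V) : LS (fun z => (m z).nF (u z) (V z)) := by
  have hB := h.B
  have hW := h.Wd
  unfold Mach.nF
  have e1 : LS (fun z => u z / (m z).Wd) := by fun_prop
  have e2 : LS (fun z => u z % (m z).Wd) := by fun_prop
  exact LS.mul (ls_small h e1 e2) (LS.dig (ls_powσ h hs)
    (ls_tbl h hs e1 e2 hV (LS.min hB e1)) (LS.const 0))

theorem ls_leaf (h : LSM m C) {u : α → ℕ} (hu : LS u) : LS (fun z => (m z).leaf (u z)) := by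
  have hW := h.Wd
  unfold Mach.leaf
  have e1 : LS (fun z => u z / (m z).Wd) := by fun_prop
  have e2 : LS (fun z => u z % (m z).Wd) := by fun_prop
  exact LS.ifz e1 (ls_init h e2) (LS.const 0)

theorem ls_ch (h : LSM m C) {u i : α → ℕ} (hu : LS u) (hi : LS i) :
    LS (fun z => (m z).ch (u z) (i z)) := by
  have hB := h.B
  have hW := h.Wd
  unfold Mach.ch
  have e1 : LS (fun z => u z / (m z).Wd) := by fun_prop
  have e2 : LS (fun z => u z % (m z).Wd) := by fun_prop
  have e3 : LS (fun z => (m z).sel (u z / (m z).Wd) (min (m z).B (u z / (m z).Wd))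
      (u z % (m z).Wd) (i z)) := by
    refine LS.congr (ls_sel h e1 (LS.min hB e1) e2 hi) fun a => ?_
    rw [min_eq_left (min_le_left (m a).B (u a / (m a).Wd))]
  fun_prop

end

theorem two_pow_le_CT {t x : ℕ} (ht : t ≤ 2000 * (Nat.log 2 x + 1)) :
    2 ^ t ≤ RT.CT x := by
  refine (Nat.pow_le_pow_right (by norm_num) ht).trans ((two_pow_log_le x 2000).trans ?_)
  exact Nat.pow_le_pow_right (by omega) (by norm_num)

/-- Packet NW-LSV. -/
theorem lsv : LSV_stmt := by
  intro α _ m x t i hx ht hi hm hb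
  have hK := hm.K
  have hV := hm.V
  have hσ := hm.σ
  have hW := hm.Wd
  have hp : LS (fun z => pR (Nat.log 2 (x z))) := LS.pR (by fun_prop)
  have hpr := fun n => pR_spec n
  have hs : ∀ a, 2 ^ (m a).σ ≤ RT.CT (x a) := by
    intro a
    apply two_pow_le_CT
    have h1 := (hb a).2.2.1
    have h2 := Pool.Agent.Helper94.RT.qT_le (Nat.log 2 (x a))
    omega
  have hm2 : LSM (fun z : α × ℕ × ℕ => m z.1) (fun z => RT.CT (x z.1)) := lsm_comp hm LS.fst
  have hm1 : LSM (fun z : α × ℕ => m z.1) (fun z => RT.CT (x z.1)) := lsm_comp hm LS.fst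
  have hpl : ∀ n, pR n ≤ 2 ^ (9 * ll n) := fun n =>
    (pR_le n).trans (Nat.pow_le_pow_right (by norm_num) (by have := ll_pos n; omega))
  unfold Pool.Agent.Helper65.NW.Mach.sim
  refine LS.gval (p := fun z => pR (Nat.log 2 (x z))) (D := fun z => (m z).V)
      (L := fun z => (m z).σ) (h := fun z => (m z).K)
      (root := fun z => t z * (m z).Wd + i z)
      (G := fun z => (m z).Wd * (m z).Wd)
      (C := fun z => RT.CT (x z))
      (F := fun z => (m z).nF) (leaf := fun z => (m z).leaf) (ch := fun z => (m z).ch)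
      hp hV hσ hK (by fun_prop) (by fun_prop) hm.bd
      ?_ ?_ ?_ ?_ (fun z => (hpr _).1) ?_ ?_ (fun z => nF_lt (m z))
      (fun z => leaf_lt (hm.ok z)) ?_ ?_
  · exact ls_nF hm2 (fun q => hs q.1) (u := fun z : α × ℕ × ℕ => z.2.1) (V := fun z => z.2.2)
      (by fun_prop) (by fun_prop)
  · exact ls_leaf hm1 (u := fun z : α × ℕ => z.2) (by fun_prop)
  · exact ls_ch hm2 (u := fun z : α × ℕ × ℕ => z.2.1) (i := fun z => z.2.2) (by fun_prop)
        (by fun_prop)
  · exact fun z u j => ch_le _ _ _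
  · intro z
    have h1 := (hpr (Nat.log 2 (x z))).2.1
    have h2 : 2 ^ 4 ≤ (Nat.log 2 (x z) + 2) ^ 4 := Nat.pow_le_pow_left (by omega) 4
    show 2 < pR (Nat.log 2 (x z))
    omega
  · intro z
    have h1 := (hpr (Nat.log 2 (x z))).2.1
    have h2 := (hb z).1
    have h3 := Pool.Agent.Helper94.RT.qT_le (Nat.log 2 (x z))
    show (m z).V * (m z).σ < pR (Nat.log 2 (x z)) - 1
    generalize Nat.log 2 (x z) = n at *
    have h8 : 8 * (n + 2) ≤ (n + 2) ^ 4 := by
      have e : (n + 2) ^ 4 = (n + 2) ^ 3 * (n + 2) := by ring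
      rw [e]
      refine Nat.mul_le_mul_right _ ?_
      calc 8 = 2 ^ 3 := by norm_num
        _ ≤ (n + 2) ^ 3 := Nat.pow_le_pow_left (by omega) 3
    omega
  · intro z
    show pR (Nat.log 2 (x z)) ^ (((m z).V + 1) * (m z).σ) ≤ _
    refine (Nat.pow_le_pow_left (hpl _) _).trans ?_
    rw [← pow_mul]
    apply two_pow_le_CT
    have h3 := Pool.Agent.Helper94.RT.qT_ll (Nat.log 2 (x z))
    have h4 := (hb z).1
    have h5 := (hb z).2.2.1
    have h6 : ((m z).V + 1) * (m z).σ ≤ 2 * RT.qT (Nat.log 2 (x z)) := by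
      rw [add_mul, one_mul]
      omega
    calc 9 * ll (Nat.log 2 (x z)) * (((m z).V + 1) * (m z).σ)
        = 9 * ((((m z).V + 1) * (m z).σ) * ll (Nat.log 2 (x z))) := by ring
      _ ≤ 9 * ((2 * RT.qT (Nat.log 2 (x z))) * ll (Nat.log 2 (x z))) :=
          Nat.mul_le_mul_left _ (Nat.mul_le_mul_right _ h6)
      _ = 18 * (RT.qT (Nat.log 2 (x z)) * ll (Nat.log 2 (x z))) := by ring
      _ ≤ _ := by omega
  · intro z
    show MM (pR (Nat.log 2 (x z))) (m z).V ^ ((m z).K) ≤ _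
    have h1 : MM (pR (Nat.log 2 (x z))) (m z).V ≤ 2 ^ (13 * ll (Nat.log 2 (x z))) := by
      have h2 := ll_pos (Nat.log 2 (x z))
      have h4 := (hb z).2.1
      have h5 := Pool.Agent.Helper94.RT.qT_le (Nat.log 2 (x z))
      have h6 : Nat.log 2 (x z) < 2 ^ ll (Nat.log 2 (x z)) := lt_two_pow_ll _
      have h7 : 2 * (m z).V + 3 ≤ 2 ^ (4 * ll (Nat.log 2 (x z))) := by
        have h8 : 1 ≤ 2 ^ ll (Nat.log 2 (x z)) := Nat.one_le_two_pow
        calc 2 * (m z).V + 3 ≤ 2 ^ ll (Nat.log 2 (x z)) * 2 ^ 3 := by omega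
          _ ≤ 2 ^ (4 * ll (Nat.log 2 (x z))) := by
              rw [← pow_add]
              exact Nat.pow_le_pow_right (by norm_num) (by omega)
      calc MM (pR (Nat.log 2 (x z))) (m z).V
          = (pR (Nat.log 2 (x z)) - 1) * (2 * (m z).V + 3) := rfl
        _ ≤ 2 ^ (9 * ll (Nat.log 2 (x z))) * 2 ^ (4 * ll (Nat.log 2 (x z))) :=
            Nat.mul_le_mul ((Nat.sub_le _ _).trans (hpl _)) h7
        _ = _ := by
            rw [← pow_add]
            congr 1
            ring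
    refine (Nat.pow_le_pow_left h1 _).trans ?_
    rw [← pow_mul]
    apply two_pow_le_CT
    have h3 := Pool.Agent.Helper94.RT.qT_ll (Nat.log 2 (x z))
    calc 13 * ll (Nat.log 2 (x z)) * (m z).K
        = 13 * ((m z).K * ll (Nat.log 2 (x z))) := by ring
      _ ≤ 13 * (RT.qT (Nat.log 2 (x z)) * ll (Nat.log 2 (x z))) :=
          Nat.mul_le_mul_left _ (Nat.mul_le_mul_right _ (hb z).2.2.2)
      _ ≤ _ := by omega

end Pool.Agent.Helper13.NW
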