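import Pool.Agent.Helper61.NW.Goals

/-!
# Project NW, packet SCH: infinite finitely generated groups with centre of finite index
-/

set_option autoImplicit false

namespace Pool.Agent.Helper13.NW

open Pool.Agent.Helper61.NW
open scoped commutatorElement

universe u

theorem finite_comm (Γ : Type u) [Group Γ] (hc : (Subgroup.center Γ).FiniteIndex) :
    Finite (commutator Γ) := by
  have hfq : Finite (Γ ⧸ Subgroup.center Γ) := inferInstance
  have hset : (commutatorSet Γ).Finite := by
    apply (Set.finite_range (fun p : (Γ ⧸ Subgroup.center Γ) × (Γ ⧸ Subgroup.center Γ) =>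
      ⁅p.1.out, p.2.out⁆)).subset
    rintro _ ⟨a, b, rfl⟩
    refine ⟨((a : Γ ⧸ Subgroup.center Γ), (b : Γ ⧸ Subgroup.center Γ)), ?_⟩
    obtain ⟨z, hz⟩ := QuotientGroup.mk_out_eq_mul (Subgroup.center Γ) a
    obtain ⟨w, hw⟩ := QuotientGroup.mk_out_eq_mul (Subgroup.center Γ) b
    have hzc : ∀ g : Γ, g * z = z * g := Subgroup.mem_center_iff.mp z.2
    have hwc : ∀ g : Γ, g * w = w * g := Subgroup.mem_center_iff.mp w.2
    change ⁅Quotient.out (a : Γ ⧸ Subgroup.center Γ), Quotient.out (b : Γ ⧸ Subgroup.center Γ)⁆ =
      ⁅a, b⁆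
    rw [hz, hw, commutatorElement_def, commutatorElement_def]
    calc a * z * (b * w) * (a * z)⁻¹ * (b * w)⁻¹
        = a * ((z : Γ) * (b * w)) * ((z : Γ)⁻¹ * a⁻¹) * ((w : Γ)⁻¹ * b⁻¹) := by group
      _ = a * ((b * w) * (z : Γ)) * ((z : Γ)⁻¹ * a⁻¹) * ((w : Γ)⁻¹ * b⁻¹) := by rw [hzc (b * w)]
      _ = a * b * ((w : Γ) * a⁻¹) * ((w : Γ)⁻¹ * b⁻¹) := by group
      _ = a * b * (a⁻¹ * (w : Γ)) * ((w : Γ)⁻¹ * b⁻¹) := by rw [hwc a⁻¹]
      _ = a * b * a⁻¹ * b⁻¹ := by group
  have : Finite (commutatorSet Γ) := hset
  infer_instance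

theorem sch : SchStmt.{u} := by
  intro Γ _ hfg hinf hc
  have hcom := finite_comm Γ hc
  have hfgA : Group.FG (Abelianization Γ) := Group.fg_of_surjective (f := Abelianization.of) (QuotientGroup.mk_surjective (s := commutator Γ))
  obtain ⟨ι, J, _, _, p, hp, e, ⟨E⟩⟩ :=
    CommGroup.equiv_free_prod_prod_multiplicative_zmod (Abelianization Γ)
  have : ∀ i, NeZero (p i ^ e i) := fun i => ⟨(pow_pos (hp i).pos _).ne'⟩
  have hT : Finite ((i : ι) → Multiplicative (ZMod (p i ^ e i))) := by
    have : ∀ i, Finite (Multiplicative (ZMod (p i ^ e i))) := fun i =>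
      (inferInstance : Finite (ZMod (p i ^ e i)))
    infer_instance
  let f : Γ →* (J → Multiplicative ℤ) × ((i : ι) → Multiplicative (ZMod (p i ^ e i))) :=
    E.toMonoidHom.comp Abelianization.of
  have hfs : Function.Surjective f := E.surjective.comp (QuotientGroup.mk_surjective (s := commutator Γ))
  have hfk : ∀ g, f g = 1 → g ∈ commutator Γ := by
    intro g hg
    have h1 : Abelianization.of g = 1 := by
      apply E.injective
      rw [map_one]
      exact hg
    exact (QuotientGroup.eq_one_iff g).mp h1
  let φ : Γ →* (J → Multiplicative ℤ) := (MonoidHom.fst _ _).comp f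
  have hφs : Function.Surjective φ := Prod.fst_surjective.comp hfs
  have hφk : {g | φ g = 1}.Finite := by
    have h1 : (f ⁻¹' (Set.range fun t : ((i : ι) → Multiplicative (ZMod (p i ^ e i))) =>
        ((1 : J → Multiplicative ℤ), t))).Finite := by
      apply Set.Finite.preimage' (Set.finite_range _)
      intro b _
      obtain ⟨g₀, rfl⟩ := hfs b
      have h2 : ((fun x : Γ => g₀ * x) '' (commutator Γ : Set Γ)).Finite :=
        Set.Finite.image _ (Set.toFinite _)
      apply h2.subset
      intro g hg
      refine ⟨g₀⁻¹ * g, hfk _ ?_, ?_⟩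
      · rw [map_mul, map_inv]
        have : f g = f g₀ := hg
        rw [this, inv_mul_cancel]
      · simp
    apply h1.subset
    intro g hg
    exact ⟨(f g).2, Prod.ext (hg : (f g).1 = 1).symm rfl⟩
  rcases Nat.lt_or_ge (Nat.card J) 3 with h3 | h3
  · right
    have hJ : Nat.card J = 0 ∨ Nat.card J = 1 ∨ Nat.card J = 2 := by omega
    rcases hJ with h0 | h1 | h2
    · exfalso
      have hJe : IsEmpty J := Finite.card_eq_zero_iff.mp h0
      have hu : {g | φ g = 1} = Set.univ := by
        ext g
        exact ⟨fun _ => trivial, fun _ => Subsingleton.elim _ _⟩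
      rw [hu] at hφk
      exact Set.infinite_univ hφk
    · left
      have hJ1 : Nat.card J = Nat.card (Fin 1) := h1.trans (Nat.card_fin 1).symm
      obtain ⟨σ⟩ := Finite.card_eq.mp hJ1
      refine ⟨(Pi.evalMonoidHom _ (σ.symm 0)).comp φ, ?_, ?_⟩
      · intro y
        obtain ⟨g, hg⟩ := hφs (fun _ => y)
        refine ⟨g, ?_⟩
        change φ g (σ.symm 0) = y
        rw [hg]
      · apply hφk.subset
        intro g hg
        have h2 : φ g (σ.symm 0) = 1 := hg
        change φ g = 1
        funext j
        have : j = σ.symm 0 := by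
          rw [Equiv.eq_symm_apply]
          exact Subsingleton.elim _ _
        rw [this, h2]
        rfl
    · right
      have hJ2 : Nat.card J = Nat.card (Fin 2) := h2.trans (Nat.card_fin 2).symm
      obtain ⟨σ⟩ := Finite.card_eq.mp hJ2
      let H : Γ →* Multiplicative (ℤ × ℤ) :=
        { toFun := fun g => Multiplicative.ofAdd
            (Multiplicative.toAdd (φ g (σ.symm 0)), Multiplicative.toAdd (φ g (σ.symm 1)))
          map_one' := by
            rw [map_one]
            rfl
          map_mul' := by
            intro a b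
            rw [map_mul]
            rfl }
      refine ⟨H, ?_, ?_⟩
      · classical
        intro y
        obtain ⟨g, hg⟩ := hφs (fun j => if j = σ.symm 0 then
          Multiplicative.ofAdd (Multiplicative.toAdd y).1 else
          Multiplicative.ofAdd (Multiplicative.toAdd y).2)
        refine ⟨g, ?_⟩
        have h10 : σ.symm 1 ≠ σ.symm 0 := by
          intro h
          have := σ.symm.injective h
          exact absurd this (by decide)
        change Multiplicative.ofAdd
            (Multiplicative.toAdd (φ g (σ.symm 0)), Multiplicative.toAdd (φ g (σ.symm 1))) = y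
        rw [hg]
        beta_reduce
        rw [if_pos rfl, if_neg h10]
        rfl
      · apply hφk.subset
        intro g hg
        have h2 : Multiplicative.ofAdd
            (Multiplicative.toAdd (φ g (σ.symm 0)), Multiplicative.toAdd (φ g (σ.symm 1))) =
            Multiplicative.ofAdd ((0 : ℤ), (0 : ℤ)) := hg
        have h3 := Multiplicative.ofAdd.injective h2
        have h4 : φ g (σ.symm 0) = 1 := congrArg Prod.fst h3
        have h5 : φ g (σ.symm 1) = 1 := congrArg Prod.snd h3
        change φ g = 1
        funext j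
        have : j = σ.symm 0 ∨ j = σ.symm 1 := by
          rw [Equiv.eq_symm_apply, Equiv.eq_symm_apply]
          generalize σ j = x
          fin_cases x
          · left; rfl
          · right; rfl
        rcases this with rfl | rfl
        · exact h4
        · exact h5
  · left
    classical
    -- three different indices
    have : Fintype J := Fintype.ofFinite J
    obtain ⟨τ⟩ : Nonempty (Fin 3 ↪ J) := by
      apply Function.Embedding.nonempty_of_card_le
      rw [Fintype.card_fin, ← Nat.card_eq_fintype_card]
      exact h3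
    have h01 : τ 0 ≠ τ 1 := fun h => absurd (τ.injective h) (by decide)
    have h02 : τ 0 ≠ τ 2 := fun h => absurd (τ.injective h) (by decide)
    have h12 : τ 1 ≠ τ 2 := fun h => absurd (τ.injective h) (by decide)
    have hlift : ∀ i : Fin 3, ∃ g : Γ, φ g = Pi.mulSingle (τ i) (Multiplicative.ofAdd (1 : ℤ)) :=
      fun i => hφs _
    choose g hg using hlift
    set m := (Subgroup.center Γ).index with hm
    have hm0 : m ≠ 0 := hc.index_ne_zero
    have hcen : ∀ (i : Fin 3) (x : Γ), x * g i ^ m = g i ^ m * x := by
      intro i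
      exact Subgroup.mem_center_iff.mp (Subgroup.pow_index_mem (Subgroup.center Γ) (g i))
    have hval : ∀ (i j : Fin 3) (n : ℤ), φ (g i ^ n) (τ j) =
        if i = j then Multiplicative.ofAdd n else 1 := by
      intro i j n
      rw [map_zpow, hg, Pi.pow_apply]
      by_cases hij : i = j
      · subst hij
        rw [Pi.mulSingle_eq_same, if_pos rfl, ← ofAdd_zsmul]
        simp
      · rw [Pi.mulSingle_eq_of_ne (fun h => hij (τ.injective h).symm), if_neg hij, one_zpow]
    refine ⟨g 0 ^ m, g 1 ^ m, hcen 0, ?_, ?_⟩
    · intro i j hij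
      rw [← zpow_natCast, ← zpow_natCast, ← zpow_mul, ← zpow_mul] at hij
      have e0 := congrArg (fun x => φ x (τ 0)) hij
      have e1 := congrArg (fun x => φ x (τ 1)) hij
      simp only [map_mul, Pi.mul_apply, hval, map_one, Pi.one_apply] at e0 e1
      rw [if_neg (by decide), if_pos trivial, one_mul, ofAdd_eq_one, mul_eq_zero] at e0
      rw [if_pos trivial, if_neg (by decide), mul_one, ofAdd_eq_one, mul_eq_zero] at e1
      have hmz : (m : ℤ) ≠ 0 := by exact_mod_cast hm0
      exact ⟨e1.resolve_left hmz, e0.resolve_left hmz⟩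
    · intro hfi
      let ψ : Γ →* Multiplicative ℤ := (Pi.evalMonoidHom _ (τ 2)).comp φ
      have hle : Subgroup.closure {g 0 ^ m, g 1 ^ m} ≤ ψ.ker := by
        rw [Subgroup.closure_le]
        rintro x hx
        have hx' : x = g 0 ^ m ∨ x = g 1 ^ m := hx
        rcases hx' with rfl | rfl
        · change φ (g 0 ^ m) (τ 2) = 1
          rw [← zpow_natCast, hval, if_neg (by decide)]
        · change φ (g 1 ^ m) (τ 2) = 1
          rw [← zpow_natCast, hval, if_neg (by decide)]
      obtain ⟨n, hn, hmem⟩ := Subgroup.exists_pow_mem_of_index_ne_zero hfi.index_ne_zero (g 2)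
      have h1 : φ (g 2 ^ n) (τ 2) = 1 := hle hmem.2
      rw [← zpow_natCast, hval, if_pos rfl, ofAdd_eq_one] at h1
      have : n = 0 := by exact_mod_cast h1
      omega

end Pool.Agent.Helper13.NW
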