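import Pool.Agent.Helper61.NW.Goals2

/-!
# Project NW+, packet TEN: infinite groups with a cyclic subgroup of finite index
-/

set_option autoImplicit false

namespace Pool.Agent.Helper13.NW

open Pool.Agent.Helper61.NW

universe u

/-- A homomorphism with finite kernel on the centralizer of an element of infinite order which
generates a subgroup of finite index. -/
theorem cen_hom {Γ : Type u} [Group Γ] {z : Γ} (hfi : (Subgroup.zpowers z).FiniteIndex)
    (hord : ∀ i : ℤ, z ^ i = 1 → i = 0) (hc : ∀ g : Γ, g * z = z * g) :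
    ∃ (m : ℕ) (f : Γ →* Multiplicative ℤ), m ≠ 0 ∧
      ∀ g, z ^ (Multiplicative.toAdd (f g)) = g ^ m := by
  have hinj : Function.Injective (zpowersHom Γ z) := by
    rw [injective_iff_map_eq_one]
    intro x hx
    have h1 : z ^ (Multiplicative.toAdd x) = 1 := by
      rw [zpowersHom_apply] at hx
      exact hx
    exact hord _ h1
  let E : Multiplicative ℤ ≃* (zpowersHom Γ z).range := MonoidHom.ofInjective hinj
  have hle : Subgroup.zpowers z ≤ (zpowersHom Γ z).range := by
    rintro _ ⟨i, rfl⟩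
    exact ⟨Multiplicative.ofAdd i, by rw [zpowersHom_apply]; rfl⟩
  have hfi' : (zpowersHom Γ z).range.FiniteIndex := Subgroup.finiteIndex_of_le hle
  have hcen : ∀ x ∈ (zpowersHom Γ z).range, ∀ g : Γ, g * x = x * g := by
    rintro _ ⟨i, rfl⟩ g
    rw [zpowersHom_apply]
    exact (Commute.zpow_right (hc g) _)
  let V : Γ →* Multiplicative ℤ := MonoidHom.transfer E.symm.toMonoidHom
  refine ⟨(zpowersHom Γ z).range.index, V, hfi'.index_ne_zero, ?_⟩
  intro g
  have key : ∀ (k : ℕ) (g₀ : Γ), g₀⁻¹ * g ^ k * g₀ ∈ (zpowersHom Γ z).range →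
      g₀⁻¹ * g ^ k * g₀ = g ^ k := by
    intro k g₀ hk
    have h1 := hcen _ hk g₀
    have h2 : g₀ * (g₀⁻¹ * g ^ k * g₀) = g ^ k * g₀ := by group
    rw [h2] at h1
    exact (mul_right_cancel h1).symm
  have h1 := MonoidHom.transfer_eq_pow E.symm.toMonoidHom g key
  have h2 : E (V g) = ⟨g ^ (zpowersHom Γ z).range.index, MonoidHom.transfer_eq_pow_aux g key⟩ := by
    change E (MonoidHom.transfer E.symm.toMonoidHom g) = _
    rw [h1]
    exact E.apply_symm_apply _
  have h3 := congrArg Subtype.val h2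
  exact h3

theorem fin_of {Γ : Type u} [Group Γ] {z : Γ} (hfi : (Subgroup.zpowers z).FiniteIndex)
    (K : Set Γ) (h : ∀ g ∈ K, ∀ g' ∈ K, ∀ i : ℤ, z ^ i = g⁻¹ * g' → i = 0) : K.Finite := by
  have hfin : Finite (Γ ⧸ Subgroup.zpowers z) := inferInstance
  apply Set.Finite.of_injOn (f := fun g : Γ => (g : Γ ⧸ Subgroup.zpowers z)) (t := Set.univ)
    (fun _ _ => trivial) ?_ (Set.toFinite _)
  intro g hg g' hg' hgg
  obtain ⟨i, hi⟩ := QuotientGroup.eq.mp hgg
  have hi' : z ^ i = g⁻¹ * g' := hi
  have h0 := h g hg g' hg' i hi'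
  rw [h0, zpow_zero] at hi'
  rw [← mul_one g, hi', mul_inv_cancel_left]

theorem surj_of {Γ : Type u} [Group Γ] (f : Γ →* Multiplicative ℤ) (hf : ∃ g, f g ≠ 1) :
    ∃ f' : Γ →* Multiplicative ℤ, Function.Surjective f' ∧ ∀ g, f' g = 1 → f g = 1 := by
  let R : AddSubgroup ℤ :=
    { carrier := {k | ∃ g, Multiplicative.toAdd (f g) = k}
      zero_mem' := ⟨1, by rw [map_one]; rfl⟩
      add_mem' := by
        rintro _ _ ⟨a, rfl⟩ ⟨b, rfl⟩
        exact ⟨a * b, by rw [map_mul]; rfl⟩
      neg_mem' := by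
        rintro _ ⟨a, rfl⟩
        exact ⟨a⁻¹, by rw [map_inv]; rfl⟩ }
  obtain ⟨a, ha⟩ := Int.subgroup_cyclic R
  have hR : ∀ g, a ∣ Multiplicative.toAdd (f g) := by
    intro g
    have h1 : Multiplicative.toAdd (f g) ∈ R := ⟨g, rfl⟩
    rw [ha, AddSubgroup.mem_closure_singleton] at h1
    obtain ⟨n, hn⟩ := h1
    rw [← hn, smul_eq_mul]
    exact Dvd.intro_left n rfl
  have ha0 : a ≠ 0 := by
    rintro rfl
    obtain ⟨g, hg⟩ := hf
    exact hg (zero_dvd_iff.mp (hR g))
  refine ⟨{ toFun := fun g => Multiplicative.ofAdd (Multiplicative.toAdd (f g) / a)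
            map_one' := by
              rw [map_one, toAdd_one, Int.zero_ediv]
              rfl
            map_mul' := by
              intro x y
              rw [map_mul, toAdd_mul, Int.add_ediv_of_dvd_left (hR x)]
              rfl }, ?_, ?_⟩
  · intro y
    have h1 : a * Multiplicative.toAdd y ∈ R := by
      rw [ha, AddSubgroup.mem_closure_singleton]
      exact ⟨Multiplicative.toAdd y, by rw [smul_eq_mul, mul_comm]⟩
    obtain ⟨g, hg⟩ := h1
    refine ⟨g, ?_⟩
    change Multiplicative.ofAdd (Multiplicative.toAdd (f g) / a) = y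
    rw [hg, Int.mul_ediv_cancel_left _ ha0]
    rfl
  · intro g hg
    have h1 : Multiplicative.toAdd (f g) / a = 0 := congrArg Multiplicative.toAdd hg
    have h2 := Int.ediv_mul_cancel (hR g)
    rw [h1, zero_mul] at h2
    exact h2.symm

theorem ten : TenStmt.{u} := by
  intro Γ _ hinf ⟨c, hc⟩
  classical
  have hN : (Subgroup.zpowers c).normalCore.FiniteIndex := inferInstance
  have hle : (Subgroup.zpowers c).normalCore ≤ Subgroup.zpowers c := Subgroup.normalCore_le _
  have hnorm : (Subgroup.zpowers c).normalCore.Normal := inferInstance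
  generalize (Subgroup.zpowers c).normalCore = N at hN hle hnorm
  have hcyc : IsCyclic N := by
    have : IsCyclic (N.subgroupOf (Subgroup.zpowers c)) := inferInstance
    exact isCyclic_of_surjective (Subgroup.subgroupOfEquivOfLe hle)
      (Subgroup.subgroupOfEquivOfLe hle).surjective
  obtain ⟨⟨z, hzN⟩, hz⟩ := IsCyclic.exists_generator (α := N)
  have hgen : ∀ x ∈ N, ∃ i : ℤ, z ^ i = x := by
    intro x hx
    obtain ⟨i, hi⟩ := hz ⟨x, hx⟩
    exact ⟨i, congrArg Subtype.val hi⟩
  have hfi : (Subgroup.zpowers z).FiniteIndex := by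
    have : N ≤ Subgroup.zpowers z := fun x hx => by
      obtain ⟨i, hi⟩ := hgen x hx
      exact ⟨i, hi⟩
    exact Subgroup.finiteIndex_of_le this
  have hord : ∀ i : ℤ, z ^ i = 1 → i = 0 := by
    intro i hi
    by_contra h0
    have h1 : IsOfFinOrder z := isOfFinOrder_iff_zpow_eq_one.mpr ⟨i, h0, hi⟩
    have h2 : Finite (Subgroup.zpowers z) := finite_zpowers.mpr h1
    have h3 := Subgroup.card_mul_index (Subgroup.zpowers z)
    have h4 : Nat.card Γ = 0 := Nat.card_eq_zero_of_infinite
    rw [h4] at h3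
    rcases mul_eq_zero.mp h3 with h5 | h5
    · exact Nat.card_pos.ne' h5
    · exact hfi.index_ne_zero h5
  have hzz : z ≠ z⁻¹ := by
    intro h
    have h1 : z ^ (2 : ℤ) = 1 := by
      rw [zpow_two]
      nth_rw 2 [h]
      exact mul_inv_cancel z
    have := hord 2 h1
    omega
  -- conjugates of `z`
  have hconj : ∀ g : Γ, ¬ g * z = z * g → g * z = z⁻¹ * g := by
    intro g hg
    obtain ⟨a, ha⟩ := hgen _ (hnorm.conj_mem z hzN g)
    obtain ⟨b, hb⟩ := hgen _ (hnorm.conj_mem z hzN g⁻¹)
    rw [inv_inv] at hb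
    have h1 : z ^ (a * b) = z := by
      rw [mul_comm, zpow_mul, hb]
      have h2 : (g⁻¹ * z * g) ^ a = g⁻¹ * z ^ a * g := by
        have := conj_zpow (i := a) (a := g⁻¹) (b := z)
        rw [inv_inv] at this
        exact this
      rw [h2, ha]
      group
    have h2 : a * b = 1 := by
      have h3 : z ^ (a * b - 1) = 1 := by rw [zpow_sub_one, h1, mul_inv_cancel]
      have := hord _ h3
      omega
    rcases Int.isUnit_iff.mp (IsUnit.of_mul_eq_one b h2) with h3 | h3
    · exfalso
      apply hg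
      rw [h3, zpow_one] at ha
      nth_rw 2 [ha]
      group
    · rw [h3, zpow_neg_one] at ha
      rw [ha]
      group
  have hconj' : ∀ g : Γ, g * z = z⁻¹ * g → g * z⁻¹ = z * g := by
    intro g hg
    calc g * z⁻¹ = z * (z⁻¹ * g) * z⁻¹ := by group
      _ = z * (g * z) * z⁻¹ := by rw [hg]
      _ = z * g := by group
  by_cases hcen : ∀ g : Γ, g * z = z * g
  · left
    obtain ⟨m, f, hm, hf⟩ := cen_hom hfi hord hcen
    have hfz : ∀ i : ℤ, Multiplicative.toAdd (f (z ^ i)) = i * m := by
      intro i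
      have h1 := hf (z ^ i)
      have h2 : z ^ (Multiplicative.toAdd (f (z ^ i)) - i * m) = 1 := by
        rw [zpow_sub, h1, zpow_mul, zpow_natCast, mul_inv_cancel]
      have := hord _ h2
      omega
    obtain ⟨f', hs, hk⟩ := surj_of f ⟨z, fun h => by
      have h1 := hfz 1
      rw [zpow_one, h] at h1
      have h2 : (0 : ℤ) = 1 * m := h1
      omega⟩
    refine ⟨f', hs, ?_⟩
    apply fin_of hfi
    intro g hg g' hg' i hi
    have h1 : f g = 1 := hk g hg
    have h2 : f g' = 1 := hk g' hg'
    have h3 := hfz i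
    rw [hi, map_mul, map_inv, h1, h2] at h3
    have h4 : (0 : ℤ) = i * m := h3
    rcases mul_eq_zero.mp h4.symm with h5 | h5
    · exact h5
    · exact absurd (by exact_mod_cast h5) hm
  · right
    push Not at hcen
    obtain ⟨u, hu⟩ := hcen
    let G0 : Subgroup Γ :=
      { carrier := {g | g * z = z * g}
        one_mem' := by change 1 * z = z * 1; rw [one_mul, mul_one]
        mul_mem' := by
          intro a b ha hb
          change a * b * z = z * (a * b)
          rw [mul_assoc, show b * z = z * b from hb, ← mul_assoc, show a * z = z * a from ha,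
            mul_assoc]
        inv_mem' := by
          intro a ha
          change a⁻¹ * z = z * a⁻¹
          have h1 : a * z = z * a := ha
          calc a⁻¹ * z = a⁻¹ * (z * a) * a⁻¹ := by group
            _ = a⁻¹ * (a * z) * a⁻¹ := by rw [h1]
            _ = z * a⁻¹ := by group }
    have hG0 : ∀ g, g ∈ G0 ↔ g * z = z * g := fun g => Iff.rfl
    let z₀ : G0 := ⟨z, rfl⟩
    have hfi0 : (Subgroup.zpowers z₀).FiniteIndex := by
      have h1 : ((Subgroup.zpowers z).subgroupOf G0).FiniteIndex := inferInstance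
      have h2 : (Subgroup.zpowers z).subgroupOf G0 ≤ Subgroup.zpowers z₀ := by
        rintro ⟨x, hx⟩ ⟨i, hi⟩
        exact ⟨i, Subtype.ext hi⟩
      exact Subgroup.finiteIndex_of_le h2
    obtain ⟨m, f, hm, hf⟩ := cen_hom hfi0 (fun i hi => hord i (congrArg Subtype.val hi))
      (fun g => Subtype.ext g.2)
    let F : Γ → ℤ := fun g => if hg : g ∈ G0 then Multiplicative.toAdd (f ⟨g, hg⟩) else 0
    have hF : ∀ g ∈ G0, z ^ F g = g ^ m := by
      intro g hg
      have h1 : F g = Multiplicative.toAdd (f ⟨g, hg⟩) := dif_pos hg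
      rw [h1]
      exact congrArg Subtype.val (hf ⟨g, hg⟩)
    have hFu : ∀ g ∈ G0, ∀ i : ℤ, z ^ i = g ^ m → F g = i := by
      intro g hg i hi
      have h2 : z ^ (F g - i) = 1 := by rw [zpow_sub, hF g hg, hi, mul_inv_cancel]
      have := hord _ h2
      omega
    have hFm : ∀ g ∈ G0, ∀ g' ∈ G0, F (g * g') = F g + F g' := by
      intro g hg g' hg'
      have h1 : F g = Multiplicative.toAdd (f ⟨g, hg⟩) := dif_pos hg
      have h2 : F g' = Multiplicative.toAdd (f ⟨g', hg'⟩) := dif_pos hg'
      have h3 : F (g * g') = Multiplicative.toAdd (f ⟨g * g', mul_mem hg hg'⟩) :=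
        dif_pos (mul_mem hg hg')
      rw [h1, h2, h3]
      have h4 : (⟨g * g', mul_mem hg hg'⟩ : G0) = ⟨g, hg⟩ * ⟨g', hg'⟩ := rfl
      rw [h4, map_mul]
      rfl
    have hnn : ∀ a b, a ∉ G0 → b ∉ G0 → a * b ∈ G0 := by
      intro a b ha hb
      have ha' := hconj' a (hconj a ha)
      have hb' := hconj b hb
      rw [hG0, mul_assoc, hb', ← mul_assoc, ha', mul_assoc]
    have hpn : ∀ a b, a ∈ G0 → b ∉ G0 → a * b ∉ G0 := by
      intro a b ha hb hab
      exact hb (by
        have := mul_mem (inv_mem ha) hab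
        rwa [inv_mul_cancel_left] at this)
    have hnp : ∀ a b, a ∉ G0 → b ∈ G0 → a * b ∉ G0 := by
      intro a b ha hb hab
      exact ha (by
        have := mul_mem hab (inv_mem hb)
        rwa [mul_inv_cancel_right] at this)
    have hun : u ∉ G0 := hu
    have hui : u⁻¹ ∉ G0 := fun h => hun (by
      have := inv_mem h
      rwa [inv_inv] at this)
    have huc : ∀ g ∈ G0, u * g * u⁻¹ ∈ G0 := fun g hg => hnn _ _ (hnp _ _ hun hg) hui
    have hFc : ∀ g ∈ G0, F (u * g * u⁻¹) = - F g := by
      intro g hg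
      apply hFu _ (huc g hg)
      have h1 : u * z * u⁻¹ = z⁻¹ := by
        rw [hconj u hun, mul_inv_cancel_right]
      have h2 : (u * g * u⁻¹) ^ m = u * g ^ m * u⁻¹ := conj_pow
      rw [h2, ← hF g hg, ← conj_zpow, h1, zpow_neg, inv_zpow]
    let ε : Γ →* ℤˣ :=
      { toFun := fun g => if g ∈ G0 then 1 else -1
        map_one' := if_pos (one_mem _)
        map_mul' := by
          intro a b
          by_cases ha : a ∈ G0
          · by_cases hb : b ∈ G0
            · rw [if_pos ha, if_pos hb, if_pos (mul_mem ha hb), one_mul]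
            · rw [if_pos ha, if_neg hb, if_neg (hpn a b ha hb), one_mul]
          · by_cases hb : b ∈ G0
            · rw [if_neg ha, if_pos hb, if_neg (hnp a b ha hb), mul_one]
            · rw [if_neg ha, if_neg hb, if_pos (hnn a b ha hb), neg_mul_neg, one_mul] }
    have hε1 : ∀ g ∈ G0, ε g = 1 := fun g hg => if_pos hg
    have hε2 : ∀ g, g ∉ G0 → ε g = -1 := fun g hg => if_neg hg
    have hε3 : ∀ g, ε g = 1 → g ∈ G0 := by
      intro g hg
      by_contra h
      rw [hε2 g h] at hg
      exact absurd hg (by decide)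
    let h : Γ → ℤ := fun g => if g ∈ G0 then F g else F (g * u⁻¹)
    have hh1 : ∀ g ∈ G0, h g = F g := fun g hg => if_pos hg
    have hh2 : ∀ g, g ∉ G0 → h g = F (g * u⁻¹) := fun g hg => if_neg hg
    have huu : F (u * u) = 0 := by
      have h1 := hFc (u * u) (hnn u u hun hun)
      have h2 : u * (u * u) * u⁻¹ = u * u := by group
      rw [h2] at h1
      omega
    refine ⟨ε, h, ?_⟩
    exact
      { neg := ⟨u, hε2 u hun⟩
        coc := by
          intro a b
          by_cases ha : a ∈ G0
          · rw [hε1 a ha]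
            by_cases hb : b ∈ G0
            · rw [hh1 _ (mul_mem ha hb), hh1 a ha, hh1 b hb, hFm a ha b hb]
              simp
            · rw [hh2 _ (hpn a b ha hb), hh1 a ha, hh2 b hb, mul_assoc,
                hFm a ha _ (hnn b _ hb hui)]
              simp
          · rw [hε2 a ha]
            have ha' : a * u⁻¹ ∈ G0 := hnn a _ ha hui
            by_cases hb : b ∈ G0
            · have e : a * b * u⁻¹ = (a * u⁻¹) * (u * b * u⁻¹) := by group
              rw [hh2 _ (hnp a b ha hb), hh2 a ha, hh1 b hb, e, hFm _ ha' _ (huc b hb), hFc b hb]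
              simp
            · have hb' : b * u⁻¹ ∈ G0 := hnn b _ hb hui
              have e : a * b = (a * u⁻¹) * ((u * (b * u⁻¹) * u⁻¹) * (u * u)) := by group
              rw [hh1 _ (hnn a b ha hb), hh2 a ha, hh2 b hb, e,
                hFm _ ha' _ (mul_mem (huc _ hb') (hnn u u hun hun)),
                hFm _ (huc _ hb') _ (hnn u u hun hun), hFc _ hb', huu]
              simp
        ker := by
          apply fin_of hfi
          rintro g ⟨hg1, hg2⟩ g' ⟨hg1', hg2'⟩ i hi
          have k1 := hε3 g hg1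
          have k2 := hε3 g' hg1'
          rw [hh1 g k1] at hg2
          rw [hh1 g' k2] at hg2'
          have k3 := hFm g k1 (g⁻¹ * g') (mul_mem (inv_mem k1) k2)
          rw [mul_inv_cancel_left, hg2, hg2', zero_add] at k3
          have k4 := hF (g⁻¹ * g') (mul_mem (inv_mem k1) k2)
          rw [← k3, ← hi, ← zpow_natCast, ← zpow_mul, zpow_zero] at k4
          rcases mul_eq_zero.mp (hord _ k4.symm) with h5 | h5
          · exact h5
          · exact absurd (by exact_mod_cast h5) hm
        unb := by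
          refine ⟨z, hε1 z rfl, ?_⟩
          have h1 : z ∈ G0 := rfl
          rw [hh1 z h1, hFu z h1 m (zpow_natCast z m)]
          exact_mod_cast hm }

end Pool.Agent.Helper13.NW
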